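import Mathlib
import Pool.Agent.H1.LU

namespace Pool.Agent.Results.MP_7af562_mp.Q1

open Pool.Agent.H1.LU Pool.Agent.H1.LU.Pauli

/-- The generators `ZZZZI`, `XXIIX`, `IIXXX`. -/
def SA : Fin 3 → Fin 5 → Pauli := ![![Z, Z, Z, Z, I], ![X, X, I, I, X], ![I, I, X, X, X]]

/-- The generators `ZZIZX`, `XIZXI`, `IXXYI`. -/
def SB : Fin 3 → Fin 5 → Pauli := ![![Z, Z, I, Z, X], ![X, I, Z, X, I], ![I, X, X, Y, I]]

/-- `Q(S_A)` and `Q(S_B)` are not locally unitarily equivalent. -/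
theorem result : ¬ LUEquiv (code SA) (code SB) := by
  intro h
  obtain ⟨π, hπ⟩ := transfer h
  have h1 := hπ 2 3 (pos SA 1 2 3 0 rfl rfl rfl)
  have h2 := hπ 0 1 (pos SA 2 0 1 2 rfl rfl rfl)
  have key : ∀ p q r s : Fin 5, p ≠ q → p ≠ r → p ≠ s → q ≠ r → q ≠ s → r ≠ s →
      (∀ a b c : Bool, (a || b || c) = true →
        nz (sel a (SB 0 p)) (sel b (SB 1 p)) (sel c (SB 2 p)) ∨
        nz (sel a (SB 0 q)) (sel b (SB 1 q)) (sel c (SB 2 q))) ∨
      (∀ a b c : Bool, (a || b || c) = true →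
        nz (sel a (SB 0 r)) (sel b (SB 1 r)) (sel c (SB 2 r)) ∨
        nz (sel a (SB 0 s)) (sel b (SB 1 s)) (sel c (SB 2 s))) := by decide +kernel
  rcases key (π 2) (π 3) (π 0) (π 1) (π.injective.ne (by decide)) (π.injective.ne (by decide))
    (π.injective.ne (by decide)) (π.injective.ne (by decide)) (π.injective.ne (by decide))
    (π.injective.ne (by decide)) with h3 | h3
  · exact neg SB (by decide +kernel) _ _ h3 h1
  · exact neg SB (by decide +kernel) _ _ h3 h2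

end Pool.Agent.Results.MP_7af562_mp.Q1
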