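import Mathlib
import Pool.Agent.H1.LU

namespace Pool.Agent.Results.MP_7af562_mp.Q2

open Pool.Agent.H1.LU Pool.Agent.H1.LU.Pauli

/-- The generators `XXIIXX`, `IIXXXX`, `ZZZZIX`. -/
def Splus : Fin 3 → Fin 6 → Pauli :=
  ![![X, X, I, I, X, X], ![I, I, X, X, X, X], ![Z, Z, Z, Z, I, X]]

/-- The generators `XXZXII`, `ZZXYII`, `IZZZXX`. -/
def Sminus : Fin 3 → Fin 6 → Pauli :=
  ![![X, X, Z, X, I, I], ![Z, Z, X, Y, I, I], ![I, Z, Z, Z, X, X]]

/-- `Q(S_+)` and `Q(S_-)` are not locally unitarily equivalent. -/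
theorem result : ¬ LUEquiv (code Splus) (code Sminus) := by
  intro h
  obtain ⟨π, hπ⟩ := transfer h
  have h1 := hπ 2 3 (pos Splus 0 2 3 0 rfl rfl rfl)
  have h2 := hπ 0 1 (pos Splus 1 0 1 2 rfl rfl rfl)
  have key : ∀ p q r s : Fin 6, p ≠ q → p ≠ r → p ≠ s → q ≠ r → q ≠ s → r ≠ s →
      (∀ a b c : Bool, (a || b || c) = true →
        nz (sel a (Sminus 0 p)) (sel b (Sminus 1 p)) (sel c (Sminus 2 p)) ∨
        nz (sel a (Sminus 0 q)) (sel b (Sminus 1 q)) (sel c (Sminus 2 q))) ∨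
      (∀ a b c : Bool, (a || b || c) = true →
        nz (sel a (Sminus 0 r)) (sel b (Sminus 1 r)) (sel c (Sminus 2 r)) ∨
        nz (sel a (Sminus 0 s)) (sel b (Sminus 1 s)) (sel c (Sminus 2 s))) := by decide +kernel
  rcases key (π 2) (π 3) (π 0) (π 1) (π.injective.ne (by decide)) (π.injective.ne (by decide))
    (π.injective.ne (by decide)) (π.injective.ne (by decide)) (π.injective.ne (by decide))
    (π.injective.ne (by decide)) with h3 | h3
  · exact neg Sminus (by decide +kernel) _ _ h3 h1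
  · exact neg Sminus (by decide +kernel) _ _ h3 h2

end Pool.Agent.Results.MP_7af562_mp.Q2
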